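import Pool.Agent.W786.Max2

/-!
# A local formula for the stretching rate: the averages at radius `r` and the misalignment
-/

open MeasureTheory Set Filter
open scoped ENNReal NNReal Topology

namespace Pool.Agent.H946.EU

open Pool.Agent.H708R2.EulerSign Pool.Agent.H708R2.EulerTypeI Pool.Agent.W786.Dir

variable {v : V → V}

lemma cross_flip (w z e : V) : w ⬝ᵥ cross z e = z ⬝ᵥ cross e w := by
  simp only [dotProduct, cross, Fin.sum_univ_three, Matrix.cons_val_zero, Matrix.cons_val_one,
    Matrix.cons_val]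
  ring

lemma nrm_zero' : nrm (0 : V) = 0 := by simp [nrm]

lemma nrm_sq' (y : V) : nrm y ^ 2 = y ⬝ᵥ y := Real.sq_sqrt (dot_self_nonneg y)

lemma cross_orth2 (e w : V) : e ⬝ᵥ cross e w = 0 := by
  simp only [dotProduct, cross, Fin.sum_univ_three, Matrix.cons_val_zero, Matrix.cons_val_one,
    Matrix.cons_val]
  ring

lemma cross_cont (e : V) {f : V → V} (hf : Continuous f) : Continuous fun z => cross e (f z) := by
  have h : ∀ i, Continuous fun z => f z i := fun i => (continuous_apply i).comp hf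
  unfold cross
  refine continuous_pi fun i => ?_
  fin_cases i <;> simp <;> fun_prop

/-- The stretching part: the positive part of `(y - x) · e` times `ω(y) · (e × (y - x))`. -/
noncomputable def Fp (v : V → V) (e x y : V) : ℝ :=
  max (((y - x) ⬝ᵥ e) * (vort v y ⬝ᵥ cross e (y - x))) 0

lemma Fp_nonneg (v : V → V) (e x y : V) : 0 ≤ Fp v e x y := le_max_right _ _

lemma dot_cont {f g : V → V} (hf : Continuous f) (hg : Continuous g) :
    Continuous fun z => f z ⬝ᵥ g z := by
  have h1 : ∀ i, Continuous fun z => f z i := fun i => (continuous_apply i).comp hf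
  have h2 : ∀ i, Continuous fun z => g z i := fun i => (continuous_apply i).comp hg
  simp only [dotProduct]
  exact continuous_finsetSum _ fun i _ => (h1 i).mul (h2 i)

lemma Fp_cont (hv : ContDiff ℝ 2 v) (e x : V) : Continuous (Fp v e x) := by
  have h1 : Continuous fun y : V => y - x := continuous_id.sub continuous_const
  exact ((dot_cont h1 continuous_const).mul (dot_cont (vort_cont hv) (cross_cont e h1))).max
    continuous_const

lemma cross_smul (c : ℝ) (e z : V) : cross e (c • z) = c • cross e z := by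
  ext i
  fin_cases i <;> simp [cross] <;> ring

lemma Fp_aff (v : V → V) (e x z : V) (s : ℝ) :
    Fp v e x (x + s • z) = s ^ 2 * max ((z ⬝ᵥ e) * (vort v (x + s • z) ⬝ᵥ cross e z)) 0 := by
  unfold Fp
  rw [add_sub_cancel_left, cross_smul, smul_dotProduct, dotProduct_smul, smul_eq_mul, smul_eq_mul,
    mul_max_of_nonneg _ _ (sq_nonneg s), mul_zero]
  congr 1
  ring

/-- The averages of the stretching part. -/
noncomputable def Jp (v : V → V) (e x : V) (s : ℝ) : ℝ := ∫ z, P 2 z * Fp v e x (x + s • z)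

lemma Jp_int (hv : ContDiff ℝ 2 v) (e x : V) (s : ℝ) :
    Integrable fun z => P 2 z * Fp v e x (x + s • z) := by
  have h1 : Continuous fun z : V => Fp v e x (x + s • z) := (Fp_cont hv e x).comp (by fun_prop)
  exact ((P_cont 2).mul h1).integrable_of_hasCompactSupport (P_supp 1).mul_right

/-- The derivative of the averages in terms of the stretching part. -/
lemma dA_st (hv : ContDiff ℝ 2 v) (hdiv : ∀ x, divergence v x = 0) (e x : V) {s : ℝ}
    (hs : 0 < s) :
    -(∫ z, P 3 z * fderiv ℝ (rate v e) (x + s • z) z) ≤ 6 / s ^ 3 * Jp v e x s := by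
  have h1 := rate_formula hv hdiv e x s
  have hc : Continuous fun z : V => vort v (x + s • z) := (vort_cont hv).comp (by fun_prop)
  have hcr : Continuous fun z : V => cross z e := by
    have : (fun z : V => cross z e) = fun z => -cross e z := by
      funext z
      ext i
      fin_cases i <;> simp [cross] <;> ring
    rw [this]
    exact (cross_cont e continuous_id).neg
  have hi : Integrable fun z => (z ⬝ᵥ e) * P 2 z * (vort v (x + s • z) ⬝ᵥ cross z e) :=
    (((dot_cont continuous_id continuous_const).mul (P_cont 2)).mul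
      (dot_cont hc hcr)).integrable_of_hasCompactSupport
        (((P_supp 1).mul_left (f := fun z : V => z ⬝ᵥ e)).mul_right)
  have h2 : s ^ 2 * -(∫ z, (z ⬝ᵥ e) * P 2 z * (vort v (x + s • z) ⬝ᵥ cross z e))
      ≤ Jp v e x s := by
    unfold Jp
    rw [← integral_neg, ← integral_const_mul]
    refine integral_mono (hi.neg.const_mul _) (Jp_int hv e x s) fun z => ?_
    show s ^ 2 * -((z ⬝ᵥ e) * P 2 z * (vort v (x + s • z) ⬝ᵥ cross z e))
      ≤ P 2 z * Fp v e x (x + s • z)
    rw [Fp_aff v e x z s]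
    have e1 : vort v (x + s • z) ⬝ᵥ cross z e = -(vort v (x + s • z) ⬝ᵥ cross e z) := by
      simp only [dotProduct, cross, Fin.sum_univ_three, Matrix.cons_val_zero, Matrix.cons_val_one,
        Matrix.cons_val]
      ring
    rw [e1]
    have hp := P_nonneg 2 z
    have h3 := le_max_left ((z ⬝ᵥ e) * (vort v (x + s • z) ⬝ᵥ cross e z)) 0
    calc s ^ 2 * -((z ⬝ᵥ e) * P 2 z * -(vort v (x + s • z) ⬝ᵥ cross e z))
        = P 2 z * (s ^ 2 * ((z ⬝ᵥ e) * (vort v (x + s • z) ⬝ᵥ cross e z))) := by ring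
      _ ≤ P 2 z * (s ^ 2 * max ((z ⬝ᵥ e) * (vort v (x + s • z) ⬝ᵥ cross e z)) 0) := by gcongr
  have h4 : -(∫ z, P 3 z * fderiv ℝ (rate v e) (x + s • z) z)
      = 6 / s ^ 3 * (s ^ 2 * -(∫ z, (z ⬝ᵥ e) * P 2 z * (vort v (x + s • z) ⬝ᵥ cross z e))) := by
    have h5 : (∫ z, P 3 z * fderiv ℝ (rate v e) (x + s • z) z)
        = 6 / s * ∫ z, (z ⬝ᵥ e) * P 2 z * (vort v (x + s • z) ⬝ᵥ cross z e) := by
      rw [div_mul_eq_mul_div, eq_div_iff hs.ne', mul_comm]
      exact h1
    rw [h5]
    field_simp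
  rw [h4]
  gcongr

/-- The average at the radius `r` is controlled by the kinetic energy in the ball. -/
lemma A_energy (hv : ContDiff ℝ 2 v) {e : V} (he : nrm e ≤ 1) (x₀ a : V) {r : ℝ} (hr : 0 < r) :
    r * |∫ z, P 3 z * rate v e (x₀ + r • z)| ≤ 6 * ∫ z, P 2 z * nrm (v (x₀ + r • z) - a) := by
  have hvj : ∀ j, ContDiff ℝ 1 fun y => v y j := fun j =>
    (contDiff_pi.1 hv j).of_le (by norm_num)
  set w : V → ℝ := fun y => ∑ j, e j * v y j with hw
  have cw : ContDiff ℝ 1 w := ContDiff.sum fun j _ => contDiff_const.mul (hvj j)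
  set δ : V → ℝ := fun z => w (x₀ + r • z) - e ⬝ᵥ a with hδ
  have cδ : ContDiff ℝ 1 δ := (comp_aff cw x₀ r).sub contDiff_const
  have dδ : ∀ z, fderiv ℝ δ z e = r * rate v e (x₀ + r • z) := by
    intro z
    have h1 : fderiv ℝ δ z = fderiv ℝ (fun z => w (x₀ + r • z)) z := fderiv_sub_const _
    rw [h1, fderiv_comp_aff cw, smul_eq_mul]
    congr 1
    have h2 : HasFDerivAt v (fderiv ℝ v (x₀ + r • z)) (x₀ + r • z) :=
      ((hv.differentiable two_ne_zero) _).hasFDerivAt
    have h3 : HasFDerivAt w (∑ j, e j • ((ContinuousLinearMap.proj j : V →L[ℝ] ℝ) ∘L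
        fderiv ℝ v (x₀ + r • z))) (x₀ + r • z) :=
      HasFDerivAt.fun_sum fun j _ => (hasFDerivAt_pi'.1 h2 j).const_mul (e j)
    rw [h3.fderiv]
    have h4 : fderiv ℝ v (x₀ + r • z) e = ∑ k, e k • fderiv ℝ v (x₀ + r • z) (Pi.single k 1) := by
      conv_lhs => rw [show e = ∑ k, e k • (Pi.single k 1 : V) by
        ext i; simp [Finset.sum_apply, Pi.single_apply]]
      rw [map_sum]
      simp
    simp only [FunLike.coe_sum, Finset.sum_apply, FunLike.coe_smul, Pi.smul_apply,
      ContinuousLinearMap.comp_apply, smul_eq_mul, h4, rate, dotProduct, Matrix.mulVec, grad,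
      Matrix.of_apply]
    refine Finset.sum_congr rfl fun j _ => ?_
    simp [mul_comm]
  have h1 : r * ∫ z, P 3 z * rate v e (x₀ + r • z) = -∫ z, fderiv ℝ (P 3) z e * δ z := by
    rw [← ibp (P_contDiff 1) (P_supp 2) cδ e, ← integral_const_mul]
    refine integral_congr_ae (Eventually.of_forall fun z => ?_)
    simp only [dδ]
    ring
  have hI : Integrable fun z => P 2 z * nrm (v (x₀ + r • z) - a) := by
    have h2 : Continuous fun z : V => nrm (v (x₀ + r • z) - a) :=
      nrm_cont.comp ((hv.continuous.comp (by fun_prop)).sub continuous_const)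
    exact ((P_cont 2).mul h2).integrable_of_hasCompactSupport (P_supp 1).mul_right
  have h2 : |∫ z, fderiv ℝ (P 3) z e * δ z| ≤ 6 * ∫ z, P 2 z * nrm (v (x₀ + r • z) - a) := by
    rw [← integral_const_mul, ← Real.norm_eq_abs]
    refine norm_integral_le_of_norm_le (hI.const_mul _) (Eventually.of_forall fun z => ?_)
    rw [Real.norm_eq_abs, abs_mul, show P 3 = P (1 + 2) from rfl, P_fderiv 1 z e]
    rcases lt_or_ge (z ⬝ᵥ z) 1 with hz | hz
    · have hz1 := (nrm_lt_one hz).le
      have b1 : |z ⬝ᵥ e| ≤ 1 := (dot_le _ _).trans (mul_le_one₀ hz1 (nrm_nonneg _) he)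
      have b2 : |δ z| ≤ nrm (v (x₀ + r • z) - a) := by
        have e1 : δ z = e ⬝ᵥ (v (x₀ + r • z) - a) := by
          simp only [hδ, hw, dotProduct, Pi.sub_apply, Fin.sum_univ_three]
          ring
        rw [e1]
        refine (dot_le _ _).trans ?_
        calc nrm e * nrm (v (x₀ + r • z) - a) ≤ 1 * nrm (v (x₀ + r • z) - a) := by
              have := nrm_nonneg (v (x₀ + r • z) - a)
              gcongr
          _ = _ := one_mul _
      have e3 : |-2 * (((1 : ℕ) : ℝ) + 2) * P (1 + 1) z * (z ⬝ᵥ e)| = 6 * P 2 z * |z ⬝ᵥ e| := by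
        rw [abs_mul, abs_mul, abs_of_nonneg (P_nonneg (1 + 1) z)]
        norm_num
      rw [e3]
      have hp := P_nonneg 2 z
      have hn := nrm_nonneg (v (x₀ + r • z) - a)
      calc 6 * P 2 z * |z ⬝ᵥ e| * |δ z| ≤ 6 * P 2 z * 1 * nrm (v (x₀ + r • z) - a) := by gcongr
        _ = 6 * (P (1 + 1) z * nrm (v (x₀ + r • z) - a)) := by ring
    · have e3 : P (1 + 1) z = 0 := P_zero_of hz
      rw [e3]
      simp
  calc r * |∫ z, P 3 z * rate v e (x₀ + r • z)|
      = |r * ∫ z, P 3 z * rate v e (x₀ + r • z)| := by rw [abs_mul, abs_of_pos hr]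
    _ ≤ _ := by rw [h1, abs_neg]; exact h2

end Pool.Agent.H946.EU
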