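import Pool.Agent.H946_EU.M1

/-!
# The misalignment integral with the kernel `|x - y|⁻³`
-/

open MeasureTheory Set Filter
open scoped ENNReal NNReal Topology

namespace Pool.Agent.H946.EU

open Pool.Agent.H708R2.EulerSign Pool.Agent.H708R2.EulerTypeI Pool.Agent.W786.Dir

variable {v : V → V}

/-- The integral of the positive part of `(n · e) (ω(y) · (e × n)) / |y - x|³`, where
`n = (y - x) / |y - x|`, over the ball of radius `r` about `x`. -/
noncomputable def stE (v : V → V) (e x : V) (r : ℝ) : ℝ≥0∞ :=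
  ∫⁻ y in {y : V | nrm (y - x) < r}, ENNReal.ofReal
    (max (((y - x) ⬝ᵥ e) * (vort v y ⬝ᵥ cross e (y - x))) 0 / nrm (y - x) ^ 5)

/-- Change of variables `y = x + s z`. -/
lemma lint_aff (F : V → ℝ≥0∞) (x : V) {s : ℝ} (hs : 0 < s) :
    ∫⁻ z, F (x + s • z) = ENNReal.ofReal ((s⁻¹) ^ 3) * ∫⁻ y, F y := by
  have h1 : ∫⁻ z, F (x + s • z) = ∫⁻ w, F (x + w) ∂(Measure.map (fun z : V => s • z) volume) := by
    have hm : MeasurableEmbedding (fun z : V => s • z) :=
      (Homeomorph.smulOfNeZero s hs.ne').measurableEmbedding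
    rw [hm.lintegral_map]
  rw [h1, Measure.map_addHaar_smul volume hs.ne', lintegral_smul_measure]
  rw [lintegral_add_left_eq_self F x]
  congr 2
  rw [abs_of_pos (by positivity)]
  simp

/-- The kernel in the variables `(s, y)`. -/
noncomputable def ker (f : V → ℝ) (x : V) (s : ℝ) (y : V) : ℝ :=
  3 * (s⁻¹) ^ 6 * nrm (y - x) ^ 2 * P 2 (s⁻¹ • (y - x)) * f y

lemma ker_meas {f : V → ℝ} (hf : Measurable f) (x : V) :
    Measurable fun q : ℝ × V => ENNReal.ofReal (ker f x q.1 q.2) := by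
  unfold ker
  have h1 : Measurable fun q : ℝ × V => (q.1)⁻¹ := measurable_fst.inv
  have h2 : Measurable fun q : ℝ × V => q.2 - x := measurable_snd.sub_const x
  have h3 : Measurable fun q : ℝ × V => nrm (q.2 - x) := nrm_cont.measurable.comp h2
  have h4 : Measurable fun q : ℝ × V => P 2 (q.1⁻¹ • (q.2 - x)) :=
    (P_cont 2).measurable.comp (h1.smul h2)
  have h5 : Measurable fun q : ℝ × V => f q.2 := hf.comp measurable_snd
  exact (((((h1.pow_const 6).const_mul 3).mul (h3.pow_const 2)).mul h4).mul h5).ennreal_ofReal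

lemma nrm_smul' (c : ℝ) (y : V) : nrm (c • y) = |c| * nrm y := by
  unfold nrm
  rw [smul_dotProduct, dotProduct_smul, smul_eq_mul, smul_eq_mul, ← mul_assoc,
    Real.sqrt_mul (mul_self_nonneg c), Real.sqrt_mul_self_eq_abs]

lemma inner_eq {f : V → ℝ} (x : V) {s : ℝ} (hs : 0 < s) :
    ∫⁻ z, ENNReal.ofReal (3 / s * (nrm z ^ 2 * P 2 z * f (x + s • z)))
      = ∫⁻ y, ENNReal.ofReal (ker f x s y) := by
  set F : V → ℝ≥0∞ := fun y => ENNReal.ofReal
    (3 / s * (nrm (s⁻¹ • (y - x)) ^ 2 * P 2 (s⁻¹ • (y - x)) * f y)) with hF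
  have h1 : ∀ z : V, ENNReal.ofReal (3 / s * (nrm z ^ 2 * P 2 z * f (x + s • z)))
      = F (x + s • z) := by
    intro z
    simp only [hF]
    have : s⁻¹ • (x + s • z - x) = z := by
      rw [add_sub_cancel_left, smul_smul, inv_mul_cancel₀ hs.ne', one_smul]
    rw [this]
  simp only [h1]
  rw [lint_aff F x hs, ← lintegral_const_mul' _ _ ENNReal.ofReal_ne_top]
  refine lintegral_congr fun y => ?_
  simp only [hF]
  rw [← ENNReal.ofReal_mul (by positivity)]
  congr 1
  rw [nrm_smul', abs_of_pos (by positivity : (0 : ℝ) < s⁻¹)]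
  unfold ker
  field_simp

/-- The integral of the kernel in `s`. -/
lemma s_int {d r c : ℝ} (hd : 0 < d) (hdr : d < r) (hc : 0 ≤ c) :
    ∫⁻ s in Ioo d r, ENNReal.ofReal (3 * (s⁻¹) ^ 6 * d ^ 2 * (1 - d ^ 2 / s ^ 2) ^ 2 * c)
      ≤ ENNReal.ofReal (8 / 105 * (c / d ^ 3)) := by
  set g : ℝ → ℝ := fun s => 3 * (s⁻¹) ^ 6 * d ^ 2 * (1 - d ^ 2 / s ^ 2) ^ 2 * c with hg
  set G : ℝ → ℝ := fun s => 3 * d ^ 2 * c * (-(s⁻¹) ^ 5 / 5 + 2 * d ^ 2 * (s⁻¹) ^ 7 / 7
    - d ^ 4 * (s⁻¹) ^ 9 / 9) with hG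
  have hGd : ∀ s, s ≠ 0 → HasDerivAt G (g s) s := by
    intro s hs
    have h0 : HasDerivAt (fun s : ℝ => s⁻¹) (-(s ^ 2)⁻¹) s := hasDerivAt_inv hs
    have h5 := ((h0.pow 5).neg).div_const 5
    have h7 := ((h0.pow 7).const_mul (2 * d ^ 2)).div_const 7
    have h9 := ((h0.pow 9).const_mul (d ^ 4)).div_const 9
    have h := ((h5.add h7).sub h9).const_mul (3 * d ^ 2 * c)
    refine h.congr_deriv ?_
    simp only [hg]
    push_cast
    field_simp
    ring
  have hgc : ContinuousOn g (Icc d r) := by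
    intro s hs
    have hs0 : s ≠ 0 := (hd.trans_le hs.1).ne'
    have h1 : ContinuousAt (fun s : ℝ => s⁻¹) s := continuousAt_inv₀ hs0
    refine ContinuousAt.continuousWithinAt ?_
    simp only [hg]
    refine ((((continuousAt_const.mul (h1.pow 6)).mul continuousAt_const).mul
      ((continuousAt_const.sub (ContinuousAt.div continuousAt_const (continuousAt_id.pow 2)
        (pow_ne_zero 2 hs0))).pow 2)).mul continuousAt_const)
  have hgi : IntegrableOn g (Ioo d r) := (hgc.integrableOn_Icc).mono_set Ioo_subset_Icc_self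
  have hg0 : ∀ s ∈ Ioo d r, 0 ≤ g s := by
    intro s hs
    have : 0 < s := hd.trans hs.1
    simp only [hg]
    positivity
  have hint : ∫ s in Ioo d r, g s = G r - G d := by
    rw [← integral_Ioc_eq_integral_Ioo, ← intervalIntegral.integral_of_le hdr.le]
    refine intervalIntegral.integral_eq_sub_of_hasDerivAt (fun s hs => hGd s ?_) ?_
    · rw [uIcc_of_le hdr.le] at hs
      exact (hd.trans_le hs.1).ne'
    · rw [intervalIntegrable_iff_integrableOn_Icc_of_le hdr.le]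
      exact hgc.integrableOn_Icc
  rw [← ofReal_integral_eq_lintegral_ofReal hgi
    ((ae_restrict_iff' measurableSet_Ioo).2 (Eventually.of_forall hg0)), hint]
  refine ENNReal.ofReal_le_ofReal ?_
  have hGr : G r ≤ 0 := by
    have hr : 0 < r := hd.trans hdr
    have e1 : G r = -(3 * d ^ 2 * c * (r⁻¹) ^ 5 * (1 / 5 - 2 * (d / r) ^ 2 / 7 + (d / r) ^ 4 / 9)) := by
      simp only [hG]
      field_simp
      ring
    rw [e1]
    have h1 : 0 ≤ d / r := by positivity
    have h2 : d / r ≤ 1 := by rw [div_le_one hr]; exact hdr.le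
    have h3 : 0 ≤ 1 / 5 - 2 * (d / r) ^ 2 / 7 + (d / r) ^ 4 / 9 := by
      nlinarith [sq_nonneg ((d / r) ^ 2 - 1), sq_nonneg ((d / r) ^ 2), mul_le_one₀ h2 h1 h2]
    have : 0 ≤ 3 * d ^ 2 * c * (r⁻¹) ^ 5 * (1 / 5 - 2 * (d / r) ^ 2 / 7 + (d / r) ^ 4 / 9) :=
      mul_nonneg (by positivity) h3
    linarith
  have hGd2 : G d = -(8 / 105 * (c / d ^ 3)) := by
    simp only [hG]
    field_simp
    ring
  linarith

end Pool.Agent.H946.EU
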