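import Pool.Agent.H946_EU.M2

/-!
# The pointwise bound of the stretching rate by the misalignment and the kinetic energy in a ball
-/

open MeasureTheory Set Filter
open scoped ENNReal NNReal Topology

namespace Pool.Agent.H946.EU

open Pool.Agent.H708R2.EulerSign Pool.Agent.H708R2.EulerTypeI Pool.Agent.W786.Dir

variable {v : V → V}

lemma ball_meas (x : V) (r : ℝ) : MeasurableSet {y : V | nrm (y - x) < r} :=
  (isOpen_lt (nrm_cont.comp (continuous_id.sub continuous_const)) continuous_const).measurableSet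

/-- The inner integral for a fixed point `y`. -/
lemma inner_s {f : V → ℝ} (hf0 : ∀ y, 0 ≤ f y) (x : V) (r : ℝ) (y : V) :
    ∫⁻ s in Ioo 0 r, ENNReal.ofReal (ker f x s y)
      ≤ ({y : V | nrm (y - x) < r}).indicator
        (fun y => ENNReal.ofReal (8 / 105 * (f y / nrm (y - x) ^ 3))) y := by
  set d := nrm (y - x) with hd
  have hd0 : 0 ≤ d := nrm_nonneg _
  have hzz : ∀ s : ℝ, (s⁻¹ • (y - x)) ⬝ᵥ (s⁻¹ • (y - x)) = d ^ 2 / s ^ 2 := by
    intro s
    rw [← nrm_sq', nrm_smul', mul_pow, sq_abs, ← hd]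
    field_simp
  have hker0 : ∀ s : ℝ, 0 < s → s ≤ d → ker f x s y = 0 := by
    intro s hs hsd
    have h1 : P 2 (s⁻¹ • (y - x)) = 0 := by
      refine P_zero_of ?_
      rw [hzz, le_div_iff₀ (by positivity)]
      nlinarith
    unfold ker
    rw [h1]
    ring
  have hker : ∀ s : ℝ, 0 < s → d < s →
      ker f x s y = 3 * (s⁻¹) ^ 6 * d ^ 2 * (1 - d ^ 2 / s ^ 2) ^ 2 * f y := by
    intro s hs hsd
    have h1 : P 2 (s⁻¹ • (y - x)) = (1 - d ^ 2 / s ^ 2) ^ 2 := by
      unfold P
      rw [hzz, max_eq_left]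
      rw [sub_nonneg, div_le_one (by positivity)]
      nlinarith
    unfold ker
    rw [h1]
  by_cases hdr : d < r
  · rw [indicator_of_mem (show y ∈ {y : V | nrm (y - x) < r} from hdr)]
    rcases hd0.eq_or_lt with h0 | h0
    · have h1 : ∀ s, ker f x s y = 0 := by
        intro s
        unfold ker
        rw [← hd, ← h0]
        ring
      simp only [h1, ENNReal.ofReal_zero, lintegral_zero]
      exact zero_le
    · have h1 : ∫⁻ s in Ioo 0 r, ENNReal.ofReal (ker f x s y)
          ≤ ∫⁻ s in Ioo 0 r, (Ioo d r).indicator (fun s => ENNReal.ofReal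
            (3 * (s⁻¹) ^ 6 * d ^ 2 * (1 - d ^ 2 / s ^ 2) ^ 2 * f y)) s := by
        refine setLIntegral_mono' measurableSet_Ioo fun s hs => ?_
        rcases le_or_gt s d with hsd | hsd
        · rw [hker0 s hs.1 hsd, ENNReal.ofReal_zero]
          exact zero_le
        · rw [indicator_of_mem (show s ∈ Ioo d r from ⟨hsd, hs.2⟩), hker s hs.1 hsd]
      refine h1.trans ?_
      rw [lintegral_indicator measurableSet_Ioo, Measure.restrict_restrict measurableSet_Ioo]
      refine (lintegral_mono_set (inter_subset_left)).trans ?_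
      exact s_int h0 hdr (hf0 y)
  · rw [indicator_of_notMem (show y ∉ {y : V | nrm (y - x) < r} from hdr)]
    push Not at hdr
    refine le_of_eq ?_
    rw [← lintegral_zero (μ := (volume : Measure ℝ).restrict (Ioo 0 r))]
    refine setLIntegral_congr_fun measurableSet_Ioo fun s hs => ?_
    show ENNReal.ofReal (ker f x s y) = 0
    rw [hker0 s hs.1 (hs.2.le.trans hdr), ENNReal.ofReal_zero]

lemma st_lint (hv : ContDiff ℝ 2 v) (e x : V) (r : ℝ) :
    ∫⁻ s in Ioo 0 r, ENNReal.ofReal (6 / s ^ 3 * Jp v e x s)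
      ≤ ENNReal.ofReal (16 / 105) * stE v e x r := by
  set f : V → ℝ := fun y => 2 * Fp v e x y / nrm (y - x) ^ 2 with hf
  have hfm : Measurable f :=
    ((Fp_cont hv e x).measurable.const_mul 2).div
      ((nrm_cont.measurable.comp (measurable_id.sub_const x)).pow_const 2)
  have hf0 : ∀ y, 0 ≤ f y := fun y =>
    div_nonneg (mul_nonneg zero_le_two (Fp_nonneg _ _ _ _)) (sq_nonneg _)
  have h1 : ∫⁻ s in Ioo 0 r, ENNReal.ofReal (6 / s ^ 3 * Jp v e x s)
      = ∫⁻ s in Ioo 0 r, ∫⁻ y, ENNReal.ofReal (ker f x s y) := by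
    refine setLIntegral_congr_fun measurableSet_Ioo fun s hs => ?_
    have hs0 : 0 < s := hs.1
    show ENNReal.ofReal (6 / s ^ 3 * Jp v e x s) = ∫⁻ y, ENNReal.ofReal (ker f x s y)
    rw [← inner_eq x hs0]
    unfold Jp
    rw [← integral_const_mul, ofReal_integral_eq_lintegral_ofReal
      ((Jp_int hv e x s).const_mul _) (Eventually.of_forall fun z => ?_)]
    · refine lintegral_congr fun z => ?_
      congr 1
      simp only [hf]
      have e1 : nrm (x + s • z - x) = s * nrm z := by
        rw [add_sub_cancel_left, nrm_smul', abs_of_pos hs0]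
      rw [e1]
      rcases (nrm_nonneg z).eq_or_lt with h0 | h0
      · have hz : z = 0 := nrm_eq_zero h0.symm
        have e2 : Fp v e x (x + s • z) = 0 := by
          rw [Fp_aff, hz]
          simp
        rw [e2]
        simp
      · field_simp
        ring
    · show (0 : ℝ) ≤ 6 / s ^ 3 * (P 2 z * Fp v e x (x + s • z))
      have hp := P_nonneg 2 z
      have hn := Fp_nonneg v e x (x + s • z)
      positivity
  rw [h1, lintegral_lintegral_swap (ker_meas hfm x).aemeasurable]
  refine (lintegral_mono (inner_s hf0 x r)).trans ?_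
  rw [lintegral_indicator (ball_meas x r)]
  refine le_of_eq ?_
  unfold stE
  rw [← lintegral_const_mul' _ _ ENNReal.ofReal_ne_top]
  refine lintegral_congr fun y => ?_
  rw [← ENNReal.ofReal_mul (by norm_num)]
  congr 1
  simp only [hf, Fp]
  rcases (nrm_nonneg (y - x)).eq_or_lt with h0 | h0
  · rw [← h0]
    simp
  · field_simp
    ring

/-- The averages at the radii `r` and `0`. -/
lemma A_diff (hv : ContDiff ℝ 2 v) (hdiv : ∀ x, divergence v x = 0) (e x : V) {r G : ℝ}
    (hr : 0 < r) (hG : 0 ≤ G) (hm : stE v e x r ≤ ENNReal.ofReal G) :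
    (∫ z, P 3 z) * rate v e x ≤ (∫ z, P 3 z * rate v e (x + r • z)) + 16 / 105 * G := by
  set A : ℝ → ℝ := fun s => ∫ z, P 3 z * rate v e (x + s • z) with hA
  set A' : ℝ → ℝ := fun s => ∫ z, P 3 z * fderiv ℝ (rate v e) (x + s • z) z with hA'
  have hAd : ∀ s, HasDerivAt A (A' s) s := fun s =>
    param_deriv (P_cont 3) (P_supp 2) (rate_contDiff hv e) x s
  have hA0 : A 0 = (∫ z, P 3 z) * rate v e x := by
    simp only [hA, zero_smul, add_zero]
    rw [integral_mul_const]
  have hc : Continuous A' := by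
    set K : Set V := tsupport (P 3) with hK
    have hKc : IsCompact K := P_supp 2
    have h1 : A' = fun s => ∫ z in K, P 3 z * fderiv ℝ (rate v e) (x + s • z) z := by
      funext s
      simp only [hA']
      symm
      refine setIntegral_eq_integral_of_forall_compl_eq_zero fun z hz => ?_
      rw [image_eq_zero_of_notMem_tsupport hz, zero_mul]
    rw [h1]
    refine continuous_parametric_integral_of_continuous ?_ hKc
    have h2 : Continuous fun q : ℝ × V => fderiv ℝ (rate v e) (x + q.1 • q.2) q.2 := by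
      have h3 : Continuous fun q : ℝ × V => fderiv ℝ (rate v e) (x + q.1 • q.2) :=
        ((rate_contDiff hv e).continuous_fderiv one_ne_zero).comp (by fun_prop)
      exact h3.clm_apply continuous_snd
    exact ((P_cont 3).comp continuous_snd).mul h2
  have h1 : A r - A 0 = ∫ s in (0 : ℝ)..r, A' s :=
    (intervalIntegral.integral_eq_sub_of_hasDerivAt (fun s _ => hAd s)
      (hc.intervalIntegrable 0 r)).symm
  have hci : IntegrableOn (fun s => max (-A' s) 0) (Ioo 0 r) :=
    (((hc.neg.max continuous_const).integrableOn_Icc (a := 0) (b := r)).mono_set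
      Ioo_subset_Icc_self)
  have h2 : A 0 - A r ≤ ∫ s in Ioo 0 r, max (-A' s) 0 := by
    have e1 : A 0 - A r = ∫ s in Ioo 0 r, -A' s := by
      rw [integral_neg, ← integral_Ioc_eq_integral_Ioo, ← intervalIntegral.integral_of_le hr.le,
        ← h1]
      ring
    rw [e1]
    refine integral_mono ((hc.neg.integrableOn_Icc (a := 0) (b := r)).mono_set
      Ioo_subset_Icc_self) hci fun s => le_max_left _ _
  have h3 : ENNReal.ofReal (∫ s in Ioo 0 r, max (-A' s) 0) ≤ ENNReal.ofReal (16 / 105 * G) := by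
    rw [ofReal_integral_eq_lintegral_ofReal hci
      (Eventually.of_forall fun s => le_max_right _ _)]
    calc ∫⁻ s in Ioo 0 r, ENNReal.ofReal (max (-A' s) 0)
        ≤ ∫⁻ s in Ioo 0 r, ENNReal.ofReal (6 / s ^ 3 * Jp v e x s) := by
          refine setLIntegral_mono' measurableSet_Ioo fun s hs => ENNReal.ofReal_le_ofReal ?_
          refine max_le (dA_st hv hdiv e x hs.1) ?_
          have hs0 : 0 < s := hs.1
          have : 0 ≤ Jp v e x s :=
            integral_nonneg fun z => mul_nonneg (P_nonneg 2 z) (Fp_nonneg _ _ _ _)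
          positivity
      _ ≤ ENNReal.ofReal (16 / 105) * stE v e x r := st_lint hv e x r
      _ ≤ ENNReal.ofReal (16 / 105) * ENNReal.ofReal G := by gcongr
      _ = ENNReal.ofReal (16 / 105 * G) := by rw [← ENNReal.ofReal_mul (by norm_num)]
  have h4 := (ENNReal.ofReal_le_ofReal_iff (by positivity)).1 h3
  rw [← hA0]
  have h5 : A 0 ≤ A r + 16 / 105 * G := by linarith
  exact h5

/-- The kinetic energy in the ball. -/
noncomputable def ke (w : V → V) (a x : V) (r : ℝ) : ℝ :=
  ∫ y in {y : V | nrm (y - x) < r}, nrm (w y - a) ^ 2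

lemma ke_nonneg (w : V → V) (a x : V) (r : ℝ) : 0 ≤ ke w a x r :=
  integral_nonneg fun _ => sq_nonneg _

lemma ball_bdd (x : V) (r : ℝ) : Bornology.IsBounded {y : V | nrm (y - x) < r} := by
  refine (Metric.isBounded_closedBall (x := x) (r := r)).subset fun y hy => ?_
  rw [Metric.mem_closedBall, dist_eq_norm]
  have hy' : nrm (y - x) < r := hy
  have hr : 0 ≤ r := (nrm_nonneg _).trans hy'.le
  exact (pi_norm_le_iff_of_nonneg hr).2 fun i => (abs_le_nrm (y - x) i).trans hy'.le

lemma ke_int {w : V → V} (hw : Continuous w) (a x : V) (r : ℝ) :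
    IntegrableOn (fun y => nrm (w y - a) ^ 2) {y : V | nrm (y - x) < r} := by
  have h1 : Continuous fun y => nrm (w y - a) ^ 2 :=
    (nrm_cont.comp (hw.sub continuous_const)).pow 2
  exact (h1.continuousOn.integrableOn_compact (ball_bdd x r).isCompact_closure).mono_set
    subset_closure

/-- The weighted average of `|w - a|` in terms of the kinetic energy. -/
lemma avg_ke {w : V → V} (hw : Continuous w) (a x : V) {r η : ℝ} (hr : 0 < r) (hη : 0 < η) :
    1 / r * ∫ z, P 2 z * nrm (w (x + r • z) - a)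
      ≤ η / 2 * (∫ z, P 2 z) + ke w a x r / (2 * η * r ^ 5) := by
  have hc1 : Continuous fun z : V => nrm (w (x + r • z) - a) :=
    nrm_cont.comp ((hw.comp (by fun_prop)).sub continuous_const)
  have hi1 : Integrable fun z => P 2 z * nrm (w (x + r • z) - a) :=
    ((P_cont 2).mul hc1).integrable_of_hasCompactSupport (P_supp 1).mul_right
  have hi2 : Integrable fun z => P 2 z * nrm (w (x + r • z) - a) ^ 2 :=
    ((P_cont 2).mul (hc1.pow 2)).integrable_of_hasCompactSupport (P_supp 1).mul_right
  have h1 : 1 / r * ∫ z, P 2 z * nrm (w (x + r • z) - a)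
      ≤ η / 2 * (∫ z, P 2 z) + 1 / (2 * η * r ^ 2) * ∫ z, P 2 z * nrm (w (x + r • z) - a) ^ 2 := by
    rw [← integral_const_mul, ← integral_const_mul, ← integral_const_mul,
      ← integral_add ((P_integrable 1).const_mul _) (hi2.const_mul _)]
    refine integral_mono (hi1.const_mul _)
      (((P_integrable 1).const_mul _).add (hi2.const_mul _)) fun z => ?_
    show 1 / r * (P 2 z * nrm (w (x + r • z) - a)) ≤ η / 2 * P 2 z
      + 1 / (2 * η * r ^ 2) * (P 2 z * nrm (w (x + r • z) - a) ^ 2)
    have hp := P_nonneg 2 z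
    set n := nrm (w (x + r • z) - a) with hn
    have h2 : 1 / r * n ≤ η / 2 + 1 / (2 * η * r ^ 2) * n ^ 2 := by
      have h3 := sq_nonneg (η - n / r)
      have h4 : 1 / r * n = n / r := by ring
      have h5 : 1 / (2 * η * r ^ 2) * n ^ 2 = (n / r) ^ 2 / (2 * η) := by
        field_simp
      rw [h4, h5]
      have h6 : η / 2 + (n / r) ^ 2 / (2 * η) - n / r = (η - n / r) ^ 2 / (2 * η) := by
        field_simp
        ring
      have : 0 ≤ (η - n / r) ^ 2 / (2 * η) := by positivity
      linarith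
    nlinarith [mul_le_mul_of_nonneg_left h2 hp]
  have h2 : ∫ z, P 2 z * nrm (w (x + r • z) - a) ^ 2 ≤ (r⁻¹) ^ 3 * ke w a x r := by
    set F : V → ℝ := fun y => P 2 (r⁻¹ • y) * nrm (w (x + y) - a) ^ 2 with hF
    have e1 : ∀ z : V, P 2 z * nrm (w (x + r • z) - a) ^ 2 = F (r • z) := by
      intro z
      simp only [hF]
      rw [smul_smul, inv_mul_cancel₀ hr.ne', one_smul]
    simp only [e1]
    rw [Measure.integral_comp_smul volume F r]
    have e2 : |(r ^ Module.finrank ℝ V)⁻¹| = (r⁻¹) ^ 3 := by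
      rw [abs_of_pos (by positivity)]
      simp
    rw [e2, smul_eq_mul]
    refine mul_le_mul_of_nonneg_left ?_ (by positivity)
    have e3 : ∫ y, F y = ∫ y, P 2 (r⁻¹ • (y - x)) * nrm (w y - a) ^ 2 := by
      rw [← integral_add_left_eq_self (μ := (volume : Measure V))
        (fun y => P 2 (r⁻¹ • (y - x)) * nrm (w y - a) ^ 2) x]
      refine integral_congr_ae (Eventually.of_forall fun y => ?_)
      simp only [hF]
      rw [add_sub_cancel_left]
    rw [e3]
    unfold ke
    rw [← integral_indicator (ball_meas x r)]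
    refine integral_mono_of_nonneg (Eventually.of_forall fun y => ?_)
      ((integrable_indicator_iff (ball_meas x r)).2 (ke_int hw a x r))
      (Eventually.of_forall fun y => ?_)
    · exact mul_nonneg (P_nonneg 2 _) (sq_nonneg _)
    · show P 2 (r⁻¹ • (y - x)) * nrm (w y - a) ^ 2 ≤ _
      by_cases hy : nrm (y - x) < r
      · rw [indicator_of_mem (show y ∈ {y : V | nrm (y - x) < r} from hy)]
        have h3 : P 2 (r⁻¹ • (y - x)) ≤ 1 := by
          unfold P
          refine pow_le_one₀ (le_max_right _ _) (max_le ?_ zero_le_one)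
          have := dot_self_nonneg (r⁻¹ • (y - x))
          linarith
        exact mul_le_of_le_one_left (sq_nonneg _) h3
      · rw [indicator_of_notMem (show y ∉ {y : V | nrm (y - x) < r} from hy)]
        have h3 : P 2 (r⁻¹ • (y - x)) = 0 := by
          refine P_zero_of ?_
          rw [← nrm_sq', nrm_smul', abs_of_pos (by positivity : (0 : ℝ) < r⁻¹)]
          push Not at hy
          have : 1 ≤ r⁻¹ * nrm (y - x) := by
            rw [inv_mul_eq_div, le_div_iff₀ hr]
            linarith
          nlinarith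
        rw [h3, zero_mul]
  refine h1.trans ?_
  have h3 : 1 / (2 * η * r ^ 2) * (∫ z, P 2 z * nrm (w (x + r • z) - a) ^ 2)
      ≤ 1 / (2 * η * r ^ 2) * ((r⁻¹) ^ 3 * ke w a x r) :=
    mul_le_mul_of_nonneg_left h2 (by positivity)
  have h4 : 1 / (2 * η * r ^ 2) * ((r⁻¹) ^ 3 * ke w a x r) = ke w a x r / (2 * η * r ^ 5) := by
    field_simp
  linarith

/-- **The stretching rate in terms of the vorticity and the kinetic energy in a ball.** -/
theorem rate_le (hv : ContDiff ℝ 2 v) (hdiv : ∀ x, divergence v x = 0) {e : V} (he : nrm e ≤ 1)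
    (x a : V) {r G η : ℝ} (hr : 0 < r) (hG : 0 ≤ G) (hη : 0 < η)
    (hm : stE v e x r ≤ ENNReal.ofReal G) :
    (∫ z, P 3 z) * rate v e x
      ≤ 3 * η * (∫ z, P 2 z) + 3 * ke v a x r / (η * r ^ 5) + 16 / 105 * G := by
  have c3 : 0 < ∫ z, P 3 z := P_int_pos 2
  have h1 := A_diff hv hdiv e x hr hG hm
  have h2 := A_energy hv he x a hr
  have h3 := avg_ke hv.continuous a x hr hη
  set A := ∫ z, P 3 z * rate v e (x + r • z) with hA
  have h4 : |A| ≤ 6 * (1 / r * ∫ z, P 2 z * nrm (v (x + r • z) - a)) := by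
    have : |A| = 1 / r * (r * |A|) := by field_simp
    rw [this]
    calc 1 / r * (r * |A|) ≤ 1 / r * (6 * ∫ z, P 2 z * nrm (v (x + r • z) - a)) := by gcongr
      _ = _ := by ring
  have h5 := le_abs_self A
  have h7 : 6 * (ke v a x r / (2 * η * r ^ 5)) = 3 * ke v a x r / (η * r ^ 5) := by
    field_simp
    ring
  linarith

end Pool.Agent.H946.EU
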