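import Pool.Agent.H946_EU.M3
import Pool.Agent.H708R2.EulerSign.Uniq

/-!
# The conservation of the kinetic energy
-/

open MeasureTheory Set Filter
open scoped ENNReal NNReal Topology

namespace Pool.Agent.H946.EU

open Pool.Agent.H708R2.EulerSign Pool.Agent.H708R2.EulerTypeI Pool.Agent.W786.Dir

/-- The integral of `|w|²` over `𝕋³ = [-π, π]³`: twice the kinetic energy. -/
noncomputable def kin (w : V → V) : ℝ :=
  ∫ y in Icc (fun _ : Fin 3 => -Real.pi) (fun _ => Real.pi), nrm (w y) ^ 2

lemma sq3_eq (y : V) : sq3 y = nrm y ^ 2 := by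
  rw [nrm_sq']
  unfold sq3
  simp only [dotProduct]
  exact Finset.sum_congr rfl fun i _ => sq _

lemma mem_dom {y : V} : y ∈ Dom ↔ ∀ i, y i ∈ Ico 0 (2 * Real.pi) := by
  rw [ZSpan.mem_fundamentalDomain]
  refine forall_congr' fun i => ?_
  have h1 : bas.repr y i = y i / (2 * Real.pi) := by
    rw [bas, Module.Basis.repr_isUnitSMul]
    simp [Units.smul_def, div_eq_inv_mul]
  rw [h1, mem_Ico, mem_Ico, div_nonneg_iff, div_lt_one (by positivity)]
  have hp := Real.pi_pos
  constructor
  · rintro ⟨h2 | h2, h3⟩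
    · exact ⟨h2.1, h3⟩
    · linarith [h2.2]
  · rintro ⟨h2, h3⟩
    exact ⟨Or.inl ⟨h2, by positivity⟩, h3⟩

lemma trans_fd (c : V) : IsAddFundamentalDomain Pool.Agent.H708R2.EulerSign.Lat
    ((fun y : V => y + c) '' Dom)
    (volume : Measure V) :=
  image_fd (AddGroup.addRight_bijective c) (by fun_prop) fun g _ x => add_right_comm x g c

lemma mem_trans {c y : V} : y ∈ (fun y : V => y + c) '' Dom ↔
    ∀ i, y i ∈ Ico (c i) (c i + 2 * Real.pi) := by
  constructor
  · rintro ⟨z, hz, rfl⟩ i
    have h1 := mem_dom.1 hz i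
    simp only [Pi.add_apply]
    exact ⟨by linarith [h1.1], by linarith [h1.2]⟩
  · intro h
    refine ⟨y - c, mem_dom.2 fun i => ?_, by simp⟩
    have h1 := h i
    simp only [Pi.sub_apply]
    exact ⟨by linarith [h1.1], by linarith [h1.2]⟩

lemma trans_int {f : V → ℝ} (hf : Periodic3 f) (c : V) :
    ∫ x in (fun y : V => y + c) '' Dom, f x = ∫ x in Dom, f x := by
  refine IsAddFundamentalDomain.setIntegral_eq (trans_fd c) dom_fd fun g x => ?_
  have h1 : (g +ᵥ x : V) = x + g := by rw [add_comm]; rfl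
  rw [h1]
  exact hf.lat g.2 x

lemma kin_eq {w : V → V} (hw : Periodic3 w) : kin w = ∫ y in Dom, sq3 (w y) := by
  have hp : Periodic3 fun y => nrm (w y) ^ 2 := by
    intro i x
    simp only
    rw [hw i x]
  have h1 : (fun y : V => y + fun _ => -Real.pi) '' Dom
      = univ.pi fun _ : Fin 3 => Ico (-Real.pi) Real.pi := by
    ext y
    rw [mem_trans, mem_univ_pi]
    refine forall_congr' fun i => ?_
    rw [show -Real.pi + 2 * Real.pi = Real.pi by ring]
  have hae : (univ.pi fun _ : Fin 3 => Ico (-Real.pi) Real.pi) =ᵐ[(volume : Measure V)]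
      Icc (fun _ : Fin 3 => -Real.pi) (fun _ => Real.pi) := Measure.univ_pi_Ico_ae_eq_Icc
  unfold kin
  rw [← setIntegral_congr_set hae, ← h1]
  have h2 := trans_int hp (fun _ => -Real.pi)
  rw [h2]
  refine integral_congr_ae (Eventually.of_forall fun y => ?_)
  exact (sq3_eq _).symm

lemma ke_le_kin {w : V → V} (hc : Continuous w) (hw : Periodic3 w) (x : V) {r : ℝ}
    (hr : r ≤ Real.pi) : ke w 0 x r ≤ kin w := by
  have hp : Periodic3 fun y => nrm (w y) ^ 2 := by
    intro i x
    simp only
    rw [hw i x]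
  have h1 : kin w = ∫ y in (fun y : V => y + (x - fun _ => Real.pi)) '' Dom, nrm (w y) ^ 2 := by
    rw [trans_int hp, kin_eq hw]
    refine integral_congr_ae (Eventually.of_forall fun y => ?_)
    exact sq3_eq _
  rw [h1]
  unfold ke
  simp only [sub_zero]
  have hcc : Continuous fun y => nrm (w y) ^ 2 := (nrm_cont.comp hc).pow 2
  have hb : Bornology.IsBounded ((fun y : V => y + (x - fun _ => Real.pi)) '' Dom) := by
    refine (Metric.isBounded_closedBall (x := x) (r := Real.pi)).subset fun y hy => ?_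
    rw [Metric.mem_closedBall, dist_eq_norm]
    refine (pi_norm_le_iff_of_nonneg Real.pi_pos.le).2 fun i => ?_
    have h2 := mem_trans.1 hy i
    simp only [Pi.sub_apply] at h2
    rw [Pi.sub_apply, Real.norm_eq_abs, abs_le]
    exact ⟨by linarith [h2.1], by linarith [h2.2]⟩
  refine setIntegral_mono_set ((hcc.continuousOn.integrableOn_compact
    hb.isCompact_closure).mono_set subset_closure) (Eventually.of_forall fun y => sq_nonneg _) ?_
  refine LE.le.eventuallyLE fun y hy => ?_
  refine mem_trans.2 fun i => ?_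
  have h2 : |(y - x) i| < Real.pi := (abs_le_nrm (y - x) i).trans_lt (lt_of_lt_of_le hy hr)
  rw [Pi.sub_apply, abs_lt] at h2
  simp only [Pi.sub_apply]
  exact ⟨by linarith [h2.1], by linarith [h2.2]⟩

/-- Conservation of the kinetic energy. -/
theorem kin_const {T : ℝ} {u : ℝ → V → V} {p : ℝ → V → ℝ}
    (h : IsClassicalSolution (Ico 0 T) u p) {t : ℝ} (ht : t ∈ Ico 0 T) :
    kin (u t) = kin (u 0) := by
  set z : ℝ → V → V := fun _ _ => 0 with hz
  have hz1 : ContDiff ℝ 1 (fun q : ℝ × V => z q.1 q.2) := contDiff_const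
  have hen : ∀ s ∈ Ico 0 T, kin (u s) = en u z s := by
    intro s hs
    rw [kin_eq (h.periodic_u s hs)]
    unfold en
    simp only [hz, sub_zero]
  have hT : 0 < T := ht.1.trans_lt ht.2
  have h0 : (0 : ℝ) ∈ Ico 0 T := ⟨le_rfl, hT⟩
  rw [hen t ht, hen 0 h0]
  rcases ht.1.eq_or_lt with h1 | h1
  · rw [← h1]
  · have hgrad : ∀ x, grad (fun _ : V => (0 : V)) x = 0 := by
      intro x
      ext i j
      simp [grad]
    have hder : ∀ s ∈ Ioo 0 t, HasDerivAt (en u z) 0 s := by
      intro s hs
      have hs' : s ∈ Ioo 0 T := ⟨hs.1, hs.2.trans ht.2⟩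
      have h2 := en_hasDerivAt h hz1 hs'
      have h3 := en_deriv_le h hz1 (fun _ i x => rfl) (fun _ x => by
        simp only [hz, divergence, hgrad]
        simp) (fun s x i => by simp [hz]) (K := 0) (fun s _ x i j => by
        simp only [hz, hgrad]
        simp) hs'
      have h4 : ∫ x in Dom, dS u z s x = 0 := by
        have : |∫ x in Dom, dS u z s x| ≤ 0 := by
          refine h3.trans (le_of_eq ?_)
          ring
        exact abs_eq_zero.1 (le_antisymm this (abs_nonneg _))
      rwa [h4] at h2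
    obtain ⟨c, hc, hc2⟩ := exists_hasDerivAt_eq_slope (en u z) (fun _ => 0) h1
      ((en_continuousOn h hz1).mono fun s hs => ⟨hs.1, hs.2.trans_lt ht.2⟩) hder
    rw [sub_zero] at hc2
    have h5 : en u z t - en u z 0 = 0 := by
      have := hc2.symm
      rw [div_eq_zero_iff] at this
      rcases this with h6 | h6
      · exact h6
      · exact absurd h6 h1.ne'
    linarith

end Pool.Agent.H946.EU
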