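import Pool.Agent.H946_EU.M3

/-!
# The constant `∫ (1 - |z|²)₊³ dz = 64 π / 315`
-/

open MeasureTheory Set Filter
open scoped ENNReal NNReal Topology

namespace Pool.Agent.H946.EU

open Pool.Agent.H708R2.EulerSign Pool.Agent.H708R2.EulerTypeI Pool.Agent.W786.Dir

lemma P3_int : ∫ z, P 3 z = 64 * Real.pi / 315 := by
  have h1 : ∫ z, P 3 z = ∫ y : EuclideanSpace ℝ (Fin 3), (max (1 - ‖y‖ ^ 2) 0) ^ 3 := by
    have h2 := (EuclideanSpace.volume_preserving_symm_measurableEquiv_toLp (Fin 3)).integral_comp'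
      (fun z : Fin 3 → ℝ => P 3 z)
    rw [← h2]
    refine integral_congr_ae (Eventually.of_forall fun y => ?_)
    show P 3 _ = _
    unfold P
    congr 3
    rw [← nrm_sq', nrm_eq]
    rfl
  rw [h1, integral_fun_norm_addHaar (volume : Measure (EuclideanSpace ℝ (Fin 3)))
    (fun r : ℝ => (max (1 - r ^ 2) 0) ^ 3)]
  have hv : (volume : Measure (EuclideanSpace ℝ (Fin 3))).real (Metric.ball 0 1)
      = Real.pi * 4 / 3 := by
    rw [Measure.real, EuclideanSpace.volume_ball_fin_three]
    simp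
    positivity
  have hI : ∫ y in Ioi (0 : ℝ), y ^ (Module.finrank ℝ (EuclideanSpace ℝ (Fin 3)) - 1)
      • (max (1 - y ^ 2) 0) ^ 3 = 16 / 315 := by
    have h3 : ∫ y in Ioi (0 : ℝ), y ^ (Module.finrank ℝ (EuclideanSpace ℝ (Fin 3)) - 1)
        • (max (1 - y ^ 2) 0) ^ 3 = ∫ y in Ioi (0 : ℝ), (Ioc (0 : ℝ) 1).indicator
          (fun y => y ^ 2 * (1 - y ^ 2) ^ 3) y := by
      refine setIntegral_congr_fun measurableSet_Ioi fun y hy => ?_
      have hy0 : (0 : ℝ) < y := hy
      simp only [finrank_euclideanSpace, Fintype.card_fin, smul_eq_mul]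
      by_cases h4 : y ≤ 1
      · rw [indicator_of_mem (show y ∈ Ioc (0 : ℝ) 1 from ⟨hy0, h4⟩), max_eq_left (by nlinarith)]
      · rw [indicator_of_notMem (fun h5 => h4 h5.2), max_eq_right (by nlinarith)]
        ring
    rw [h3, integral_indicator measurableSet_Ioc, Measure.restrict_restrict measurableSet_Ioc,
      inter_eq_left.2 Ioc_subset_Ioi_self, ← intervalIntegral.integral_of_le zero_le_one]
    have h6 : ∀ y : ℝ, y ^ 2 * (1 - y ^ 2) ^ 3 = y ^ 2 - 3 * y ^ 4 + 3 * y ^ 6 - y ^ 8 := by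
      intro y; ring
    simp only [h6]
    have i : ∀ n : ℕ, IntervalIntegrable (fun y : ℝ => y ^ n) volume 0 1 :=
      fun n => (continuous_pow n).intervalIntegrable _ _
    rw [intervalIntegral.integral_sub (((i 2).sub ((i 4).const_mul 3)).add ((i 6).const_mul 3)) (i 8),
      intervalIntegral.integral_add ((i 2).sub ((i 4).const_mul 3)) ((i 6).const_mul 3),
      intervalIntegral.integral_sub (i 2) ((i 4).const_mul 3),
      intervalIntegral.integral_const_mul, intervalIntegral.integral_const_mul]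
    simp only [integral_pow]
    norm_num
  rw [hI, hv]
  simp only [finrank_euclideanSpace, Fintype.card_fin, nsmul_eq_mul, smul_eq_mul]
  push_cast
  ring

end Pool.Agent.H946.EU
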