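import Pool.Agent.H946_EU.M4
import Pool.Agent.H946_EU.M5

/-!
# The misalignment near the maxima of the vorticity before a singularity
-/

open MeasureTheory Set Filter
open scoped ENNReal NNReal Topology

namespace Pool.Agent.H946.EU

open Pool.Agent.H708R2.EulerSign Pool.Agent.H708R2.EulerTypeI Pool.Agent.W786.Dir
  Pool.Agent.W786.Max

variable {T : ℝ} {u : ℝ → V → V} {p : ℝ → V → ℝ}

lemma nrm_dirv (v : V → V) (x : V) : nrm (dirv v x) ≤ 1 := by
  unfold dirv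
  rw [nrm_smul']
  have h0 := nrm_nonneg (vort v x)
  rw [abs_of_nonneg (inv_nonneg.2 h0)]
  exact inv_mul_le_one

lemma Pq_eq (t : ℝ) (x : V) : Pq u t x = rate (u t) (dirv (u t) x) x * Wq u t x := by
  have h1 : vort (u t) x = nrm (vort (u t) x) • dirv (u t) x := by
    unfold dirv
    rcases (nrm_nonneg (vort (u t) x)).eq_or_lt with h0 | h0
    · rw [← h0, zero_smul]
      exact nrm_eq_zero h0.symm
    · rw [smul_smul, mul_inv_cancel₀ h0.ne', one_smul]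
  unfold Pq
  rw [Wq_eq]
  conv_lhs => rw [h1]
  rw [Matrix.mulVec_smul, smul_dotProduct, dotProduct_smul, smul_eq_mul, smul_eq_mul, rate]
  ring

/-- The condition for the radius `r` of the ball about `x` at the time `t`. -/
def Scale (T ε : ℝ) (u : ℝ → V → V) (t : ℝ) (x : V) (r : ℝ) : Prop :=
  (r ≤ Real.pi ∧ (T - t) ^ 2 * kin (u 0) ≤ ε * r ^ 5) ∨
    ∃ a : V, (T - t) ^ 2 * ke (u t) a x r ≤ ε * r ^ 5

/-- The constant in front of the square root of `ε`. -/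
noncomputable def K1 : ℝ := 3 * (1 + ∫ z, P 2 z) / (64 * Real.pi / 315)

lemma K1_pos : 0 < K1 := by
  have h2 : 0 < ∫ z, P 2 z := P_int_pos 1
  unfold K1
  positivity

/-- The rate of growth at a point of maximal vorticity. -/
lemma growth_rate (h : IsC2Solution T u p) {ε : ℝ} (hε : 0 < ε) {t : ℝ} (ht : t ∈ Ioo 0 T)
    {x : V} {r G : ℝ} (hr : 0 < r) (hG : 0 ≤ G) (hs : Scale T ε u t x r)
    (hm : stE (u t) (dirv (u t) x) x r ≤ ENNReal.ofReal G) :
    Pq u t x ≤ (K1 * √ε / (T - t) + 3 / (4 * Real.pi) * G) * Wq u t x := by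
  have hTt : 0 < T - t := sub_pos.2 ht.2
  have htI : t ∈ Ico 0 T := ⟨ht.1.le, ht.2⟩
  have hv : ContDiff ℝ 2 (u t) := slice_two h ht
  have hdiv := h.sol.div_free t htI
  have hsε : 0 < √ε := Real.sqrt_pos.2 hε
  -- both alternatives give a bound of the kinetic energy in the ball
  have hke : ∃ a : V, (T - t) ^ 2 * ke (u t) a x r ≤ ε * r ^ 5 := by
    rcases hs with ⟨hπ, hs⟩ | hs
    · refine ⟨0, le_trans ?_ hs⟩
      rw [← kin_const h.sol htI]
      have := ke_le_kin hv.continuous (h.sol.periodic_u t htI) x hπ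
      gcongr
    · exact hs
  obtain ⟨a, ha⟩ := hke
  set η := √ε / (T - t) with hη
  have hη0 : 0 < η := by positivity
  have h1 := rate_le hv hdiv (nrm_dirv (u t) x) x a hr hG hη0 hm
  have h2 : 0 < ∫ z, P 2 z := P_int_pos 1
  have hε2 : √ε * √ε = ε := Real.mul_self_sqrt hε.le
  have h3 : 3 * ke (u t) a x r / (η * r ^ 5) ≤ 3 * η := by
    rw [div_le_iff₀ (by positivity)]
    have h4 : ke (u t) a x r ≤ η ^ 2 * r ^ 5 := by
      have h5 : η ^ 2 = ε / (T - t) ^ 2 := by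
        rw [hη, div_pow, sq, hε2]
      rw [h5, div_mul_eq_mul_div, le_div_iff₀ (by positivity)]
      linarith
    nlinarith
  have h4 : (∫ z, P 3 z) * rate (u t) (dirv (u t) x) x
      ≤ 3 * (1 + ∫ z, P 2 z) * η + 16 / 105 * G := by linarith
  rw [P3_int] at h4
  have h5 : rate (u t) (dirv (u t) x) x ≤ K1 * √ε / (T - t) + 3 / (4 * Real.pi) * G := by
    have hpi := Real.pi_pos
    have h6 : rate (u t) (dirv (u t) x) x
        ≤ (3 * (1 + ∫ z, P 2 z) * η + 16 / 105 * G) / (64 * Real.pi / 315) := by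
      rw [le_div_iff₀ (by positivity), mul_comm]
      exact h4
    refine h6.trans (le_of_eq ?_)
    rw [hη]
    unfold K1
    field_simp
    ring
  rw [Pq_eq]
  exact mul_le_mul_of_nonneg_right h5 (Wq_nonneg _ _)

/-- Growth of the maximum of the vorticity from the time `t₀` on. -/
lemma growth_main (h : IsC2Solution T u p) {ε t₀ : ℝ} (hε : 0 < ε) (ht₀ : t₀ ∈ Ioo 0 T)
    {g : ℝ → ℝ} (hg0 : ∀ t ∈ Ioo t₀ T, 0 ≤ g t) (hgi : ∀ t ∈ Ioo t₀ T, IntegrableOn g (Ioo t₀ t))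
    (hyp : ∀ᵐ t, t ∈ Ioo t₀ T → ∃ (x : V) (r : ℝ), IsMaxPt u t x ∧ 0 < r ∧ Scale T ε u t x r ∧
      stE (u t) (dirv (u t) x) x r ≤ ENNReal.ofReal (g t))
    {W : ℝ} (hW : ∀ y, nrm (vort (u t₀) y) ≤ W) {t : ℝ} (ht : t ∈ Ioo t₀ T) (x : V) :
    nrm (vort (u t) x) ≤ W * Real.exp (K1 * √ε * Real.log ((T - t₀) / (T - t))
      + 3 / (4 * Real.pi) * ∫ s in Ioo t₀ t, g s) := by
  have hTt : 0 < T - t := sub_pos.2 ht.2
  have hTt0 : 0 < T - t₀ := sub_pos.2 ht₀.2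
  have hcont : ContinuousOn (fun s => K1 * √ε / (T - s)) (Icc t₀ t) := by
    refine ContinuousOn.div continuousOn_const (by fun_prop) fun s hs => ?_
    have : s < T := hs.2.trans_lt ht.2
    exact (sub_pos.2 this).ne'
  have i1 : IntegrableOn (fun s => K1 * √ε / (T - s)) (Icc t₀ t) := hcont.integrableOn_Icc
  have i2 : IntegrableOn (fun s => 3 / (4 * Real.pi) * g s) (Icc t₀ t) := by
    rw [integrableOn_Icc_iff_integrableOn_Ioo]
    exact (hgi t ht).const_mul _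
  have h1 := max_growth h ht₀.1.le ht.1.le ht.2
    (ρ := fun s => K1 * √ε / (T - s) + 3 / (4 * Real.pi) * g s) (i1.add i2) (fun s hs => by
      have h2 : 0 < T - s := sub_pos.2 (hs.2.trans ht.2)
      have h3 := hg0 s ⟨hs.1, hs.2.trans ht.2⟩
      have h4 := K1_pos
      have h5 := Real.pi_pos
      positivity) (by
      filter_upwards [hyp] with s hs hsI
      obtain ⟨x, r, hx, hr, hsc, hm⟩ := hs ⟨hsI.1, hsI.2.trans ht.2⟩
      exact ⟨x, hx, growth_rate h hε ⟨ht₀.1.trans hsI.1, hsI.2.trans ht.2⟩ hr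
        (hg0 s ⟨hsI.1, hsI.2.trans ht.2⟩) hsc hm⟩) hW x
  refine h1.trans (le_of_eq ?_)
  congr 2
  have i1' : IntervalIntegrable (fun s => K1 * √ε / (T - s)) volume t₀ t :=
    (intervalIntegrable_iff_integrableOn_Icc_of_le ht.1.le).2 i1
  have i2' : IntervalIntegrable (fun s => 3 / (4 * Real.pi) * g s) volume t₀ t :=
    (intervalIntegrable_iff_integrableOn_Icc_of_le ht.1.le).2 i2
  rw [intervalIntegral.integral_add i1' i2', intervalIntegral.integral_const_mul,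
    intervalIntegral.integral_of_le (f := g) ht.1.le, integral_Ioc_eq_integral_Ioo]
  congr 1
  have h2 : ∫ s in t₀..t, K1 * √ε / (T - s)
      = (-(K1 * √ε * Real.log (T - t))) - (-(K1 * √ε * Real.log (T - t₀))) := by
    refine intervalIntegral.integral_eq_sub_of_hasDerivAt
      (f := fun s => -(K1 * √ε * Real.log (T - s))) (fun s hs => ?_) i1'
    rw [uIcc_of_le ht.1.le] at hs
    have h3 : 0 < T - s := sub_pos.2 (hs.2.trans_lt ht.2)
    have h4 : HasDerivAt (fun s => T - s) (-1) s := by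
      simpa using (hasDerivAt_id s).const_sub T
    refine (((h4.log h3.ne').const_mul (K1 * √ε)).neg).congr_deriv ?_
    field_simp
  rw [h2, Real.log_div hTt0.ne' hTt.ne']
  ring

/-- A power bound with exponent below `1` near `T` makes the Beale-Kato-Majda integral finite. -/
lemma bkm_of_power (h : IsC2Solution T u p) {t₁ C θ : ℝ} (ht₁ : t₁ ∈ Ioo 0 T) (hθ : θ < 1)
    (hC : ∀ t ∈ Ico t₁ T, ∀ x, nrm (vort (u t) x) ≤ C * (T - t) ^ (-θ)) : BKMFinite T u := by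
  obtain ⟨M, -, hM⟩ := vort_bound h.sol ht₁.2
  have hfin2 : ∫⁻ t in Ico t₁ T, ⨆ x, ENNReal.ofReal (nrm (vort (u t) x)) < ∞ := by
    have h1 : ∫⁻ t in Ico t₁ T, ⨆ x, ENNReal.ofReal (nrm (vort (u t) x))
        ≤ ∫⁻ t in Ico t₁ T, ENNReal.ofReal (C * (T - t) ^ (-θ)) := by
      refine setLIntegral_mono' measurableSet_Ico fun t ht => ?_
      exact iSup_le fun x => ENNReal.ofReal_le_ofReal (hC t ht x)
    refine h1.trans_lt ?_
    have h2 : IntegrableOn (fun t => C * (T - t) ^ (-θ)) (Ico t₁ T) := by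
      rw [integrableOn_Ico_iff_integrableOn_Ioo, ← integrableOn_Ioc_iff_integrableOn_Ioo,
        ← intervalIntegrable_iff_integrableOn_Ioc_of_le ht₁.2.le]
      refine IntervalIntegrable.const_mul ?_ C
      have h3 : IntervalIntegrable (fun x : ℝ => x ^ (-θ)) volume (T - t₁) (T - T) :=
        intervalIntegral.intervalIntegrable_rpow' (by linarith)
      have h4 := h3.comp_sub_left T
      rwa [sub_sub_cancel, sub_sub_cancel] at h4
    exact h2.lintegral_lt_top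
  have hfin1 : ∫⁻ t in Ioo 0 t₁, ⨆ x, ENNReal.ofReal (nrm (vort (u t) x)) < ∞ := by
    have h1 : ∫⁻ t in Ioo 0 t₁, ⨆ x, ENNReal.ofReal (nrm (vort (u t) x))
        ≤ ∫⁻ _t in Ioo 0 t₁, ENNReal.ofReal M := by
      refine setLIntegral_mono' measurableSet_Ioo fun t ht => ?_
      exact iSup_le fun x => ENNReal.ofReal_le_ofReal (hM t ⟨ht.1.le, ht.2.le⟩ x).1
    refine h1.trans_lt ?_
    rw [setLIntegral_const, Real.volume_Ioo]
    exact ENNReal.mul_lt_top ENNReal.ofReal_lt_top ENNReal.ofReal_lt_top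
  unfold BKMFinite
  have hsplit : Ioo 0 T ⊆ Ioo 0 t₁ ∪ Ico t₁ T := by
    intro t ht
    by_cases h1 : t < t₁
    · exact Or.inl ⟨ht.1, h1⟩
    · exact Or.inr ⟨not_lt.1 h1, ht.2⟩
  refine (lintegral_mono_set hsplit).trans_lt ?_
  refine (lintegral_union_le _ _ _).trans_lt ?_
  exact ENNReal.add_lt_top.2 ⟨hfin1, hfin2⟩

/-- **The misalignment at the maxima of the vorticity before a singularity.** -/
theorem mis_main {b : ℝ} (hb : b < 4 * Real.pi / 3) : ∃ ε : ℝ, 0 < ε ∧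
    ∀ (T : ℝ) (u : ℝ → V → V) (p : ℝ → V → ℝ), IsC2Solution T u p → ¬ BKMFinite T u →
      ∀ (t₀ : ℝ) (g : ℝ → ℝ), t₀ ∈ Ioo 0 T → (∀ t ∈ Ioo t₀ T, 0 ≤ g t) →
      (∀ t ∈ Ioo t₀ T, IntegrableOn g (Ioo t₀ t)) →
      (∀ᵐ t, t ∈ Ioo t₀ T → ∃ (x : V) (r : ℝ), IsMaxPt u t x ∧ 0 < r ∧ Scale T ε u t x r ∧
        stE (u t) (dirv (u t) x) x r ≤ ENNReal.ofReal (g t)) →
      ∀ C₀ : ℝ, ∃ᶠ t in 𝓝[<] T,
        b * Real.log (1 / (T - t)) + C₀ < ∫ s in Ioo t₀ t, g s := by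
  have hpi := Real.pi_pos
  have hK := K1_pos
  set κ₂ : ℝ := 3 / (4 * Real.pi) with hκ₂
  have hκ₂0 : 0 < κ₂ := by positivity
  have hlt : κ₂ * b < 1 := by
    calc κ₂ * b < κ₂ * (4 * Real.pi / 3) := by gcongr
      _ = 1 := by rw [hκ₂]; field_simp
  set δ : ℝ := (1 - κ₂ * b) / 2 with hδ
  have hδ0 : 0 < δ := by
    have : 0 < 1 - κ₂ * b := sub_pos.2 hlt
    positivity
  refine ⟨(δ / K1) ^ 2, by positivity, fun T u p h hsing t₀ g ht₀ hg0 hgi hyp C₀ => ?_⟩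
  have hsq : K1 * √((δ / K1) ^ 2) = δ := by
    rw [Real.sqrt_sq (by positivity)]
    field_simp
  intro hcon
  apply hsing
  have hcon' : ∀ᶠ t in 𝓝[<] T,
      ∫ s in Ioo t₀ t, g s ≤ b * Real.log (1 / (T - t)) + C₀ := by
    filter_upwards [hcon] with t ht
    exact not_lt.1 ht
  have hev : ∀ᶠ t in 𝓝[<] T, t ∈ Ioo t₀ T ∧
      ∫ s in Ioo t₀ t, g s ≤ b * Real.log (1 / (T - t)) + C₀ :=
    (Ioo_mem_nhdsLT ht₀.2 : Ioo t₀ T ∈ 𝓝[<] T) |> fun h1 => (eventually_mem_set.2 h1).and hcon'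
  obtain ⟨t₂, ht₂, ht₂'⟩ := mem_nhdsLT_iff_exists_Ioo_subset.1 hev
  obtain ⟨t₁, ht₁a, ht₁b⟩ := exists_between (show t₂ < T from ht₂)
  have ht₁I := (ht₂' ⟨ht₁a, ht₁b⟩).1
  obtain ⟨W, hW0, hW⟩ := vort_bound h.sol ht₀.2
  have hWy : ∀ y, nrm (vort (u t₀) y) ≤ W := fun y => (hW t₀ ⟨ht₀.1.le, le_rfl⟩ y).1
  have hTt0 : 0 < T - t₀ := sub_pos.2 ht₀.2
  refine bkm_of_power h (t₁ := t₁) (θ := δ + κ₂ * b)
    (C := W * Real.exp (δ * Real.log (T - t₀) + κ₂ * C₀)) ⟨ht₀.1.trans ht₁I.1, ht₁b⟩ ?_ ?_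
  · rw [hδ]
    linarith
  · intro t ht x
    have htt : t ∈ Ioo t₂ T := ⟨ht₁a.trans_le ht.1, ht.2⟩
    obtain ⟨htI, htg⟩ := ht₂' htt
    have hTt : 0 < T - t := sub_pos.2 ht.2
    have h1 := growth_main h (by positivity : 0 < (δ / K1) ^ 2) ht₀ hg0 hgi hyp hWy htI x
    rw [hsq, ← hκ₂] at h1
    refine h1.trans ?_
    rw [mul_assoc]
    refine mul_le_mul_of_nonneg_left ?_ hW0
    rw [Real.rpow_def_of_pos hTt, ← Real.exp_add]
    refine Real.exp_le_exp.2 ?_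
    have h2 : κ₂ * ∫ s in Ioo t₀ t, g s ≤ κ₂ * (b * Real.log (1 / (T - t)) + C₀) :=
      mul_le_mul_of_nonneg_left htg hκ₂0.le
    rw [one_div, Real.log_inv] at h2
    rw [Real.log_div hTt0.ne' hTt.ne']
    linarith

end Pool.Agent.H946.EU
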